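import Pool.Agent.Q10.Twist.Tree

/-! # The base case: the 140 trees with four quaternary nodes -/

namespace Q10.Twist

namespace B

/-- boolean equality -/
def beq : B → B → Bool
  | leaf, leaf => true
  | node l r, node l' r' => beq l l' && beq r r'
  | _, _ => false

theorem eq_of_beq : ∀ {s t : B}, beq s t = true → s = t := by
  intro s
  induction s with
  | leaf =>
    intro t h
    cases t with
    | leaf => rfl
    | node _ _ => simp [beq] at h
  | node l r hl hr =>
    intro t h
    cases t with
    | leaf => simp [beq] at h
    | node l' r' =>
      simp only [beq, Bool.and_eq_true] at h
      rw [hl h.1, hr h.2]

/-- move at the root; `true` is the direction of `Step` -/
def mv0 : Bool → B → Option B
  | true, node (node (node a₁ a₂) (node a₃ a₄)) b => some (node a₁ (node (node a₂ a₃) (node a₄ b)))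
  | false, node a₁ (node (node a₂ a₃) (node a₄ b)) => some (node (node (node a₁ a₂) (node a₃ a₄)) b)
  | _, _ => none

/-- move at a position -/
def mv : List Bool → Bool → B → Option B
  | [], d, t => mv0 d t
  | false :: p, d, node l r => (mv p d l).map (fun x => node x r)
  | true :: p, d, node l r => (mv p d r).map (fun x => node l x)
  | _ :: _, _, leaf => none

theorem mv0_sound {d : Bool} {t t' : B} (h : mv0 d t = some t') : Eqv t t' := by
  unfold mv0 at h
  split at h
  · injection h with h
    subst h
    exact .rel _ _ (.root _ _ _ _ _)
  · injection h with h
    subst h
    exact .symm _ _ (.rel _ _ (.root _ _ _ _ _))
  · cases h

theorem mv_sound : ∀ {p : List Bool} {d : Bool} {t t' : B}, mv p d t = some t' → Eqv t t' := by
  intro p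
  induction p with
  | nil => intro d t t' h; exact mv0_sound h
  | cons a p ih =>
    intro d t t' h
    cases t with
    | leaf => cases a <;> simp [mv] at h
    | node l r =>
      cases a with
      | false =>
        simp only [mv, Option.map_eq_some_iff] at h
        obtain ⟨x, hx, rfl⟩ := h
        exact (ih hx).left r
      | true =>
        simp only [mv, Option.map_eq_some_iff] at h
        obtain ⟨x, hx, rfl⟩ := h
        exact (ih hx).right l

/-- run a sequence of moves and compare with the target -/
def run : List (List Bool × Bool) → B → B → Bool
  | [], s, t => beq t s
  | m :: ms, s, t => match mv m.1 m.2 t with
    | some t' => run ms s t'
    | none => false

theorem run_sound : ∀ {ms : List (List Bool × Bool)} {s t : B}, run ms s t = true → Eqv t s := by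
  intro ms
  induction ms with
  | nil =>
    intro s t h
    rw [eq_of_beq h]
    exact .refl _
  | cons m ms ih =>
    intro s t h
    unfold run at h
    split at h
    · next t' ht' => exact (mv_sound ht').trans _ _ _ (ih h)
    · cases h

/-- check a list of trees against a list of paths -/
def checkAll (s : B) : List B → List (List (List Bool × Bool)) → Bool
  | [], _ => true
  | t :: ts, p :: ps => run p s t && checkAll s ts ps
  | _ :: _, [] => false

theorem checkAll_sound {s : B} : ∀ {ts : List B} {ps : List (List (List Bool × Bool))},
    checkAll s ts ps = true → ∀ t ∈ ts, Eqv t s := by
  intro ts
  induction ts with
  | nil => intro ps _ t ht; cases ht
  | cons t ts ih =>
    intro ps h
    cases ps with
    | nil => simp [checkAll] at h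
    | cons p ps =>
      simp only [checkAll, Bool.and_eq_true] at h
      intro u hu
      rcases List.mem_cons.1 hu with rfl | hu
      · exact run_sound h.1
      · exact ih h.2 u hu

/-- the list of trees with `n` quaternary nodes (with fuel) -/
def gen : ℕ → ℕ → List B
  | 0, _ => []
  | _ + 1, 0 => [leaf]
  | f + 1, m + 1 => (List.range (m + 1)).flatMap fun i =>
      (List.range (m + 1 - i)).flatMap fun j =>
        (List.range (m + 1 - i - j)).flatMap fun k =>
          (gen f i).flatMap fun a => (gen f j).flatMap fun b => (gen f k).flatMap fun c =>
            (gen f (m - i - j - k)).map fun d => Nd a b c d

theorem shape (t : B) : (Ty true t → ∃ n, t.len = 3 * n + 1) ∧ (Ty false t → ∃ n, t.len = 3 * n + 2) := by
  induction t with
  | leaf => exact ⟨fun _ => ⟨0, rfl⟩, fun h => h.elim⟩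
  | node l r hl hr =>
    refine ⟨fun h => ?_, fun h => ?_⟩
    · obtain ⟨n, hn⟩ := hl.2 h.1
      obtain ⟨m, hm⟩ := hr.2 h.2
      exact ⟨n + m + 1, by simp only [len]; omega⟩
    · obtain ⟨n, hn⟩ := hl.1 h.1
      obtain ⟨m, hm⟩ := hr.1 h.2
      exact ⟨n + m, by simp only [len]; omega⟩

theorem cases_true {t : B} (h : Ty true t) : t = leaf ∨ ∃ a b c d, t = Nd a b c d ∧ Ty true a ∧
    Ty true b ∧ Ty true c ∧ Ty true d := by
  match t, h with
  | leaf, _ => exact Or.inl rfl
  | node (node a b) (node c d), h => exact Or.inr ⟨a, b, c, d, rfl, h.1.1, h.1.2, h.2.1, h.2.2⟩
  | node leaf r, h => exact h.1.elim
  | node (node a b) leaf, h => exact h.2.elim

theorem mem_gen : ∀ (f n : ℕ) (t : B), Ty true t → t.len = 3 * n + 1 → n < f → t ∈ gen f n := by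
  intro f
  induction f with
  | zero => intro n t _ _ h; omega
  | succ f ih =>
    intro n t ht hlen hn
    rcases cases_true ht with rfl | ⟨a, b, c, d, rfl, ha, hb, hc, hd⟩
    · simp only [len] at hlen
      obtain rfl : n = 0 := by omega
      simp [gen]
    · obtain ⟨i, hi⟩ := (shape a).1 ha
      obtain ⟨j, hj⟩ := (shape b).1 hb
      obtain ⟨k, hk⟩ := (shape c).1 hc
      obtain ⟨l, hl⟩ := (shape d).1 hd
      simp only [len] at hlen
      obtain ⟨m, rfl⟩ : ∃ m, n = m + 1 := ⟨n - 1, by omega⟩
      have hl' : l = m - i - j - k := by omega
      simp only [gen, List.mem_flatMap, List.mem_range, List.mem_map]
      exact ⟨i, by omega, j, by omega, k, by omega, a, ih i a ha hi (by omega), b,
        ih j b hb hj (by omega), c, ih k c hc hk (by omega), d,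
        hl' ▸ ih l d hd hl (by omega), rfl⟩

/-- the paths -/
def table : List (List (List Bool × Bool)) := [
  [([true, true, true], false), ([true], false), ([true, false, true], false), ([], false), ([false], false), ([false, false, false], false)],
  [([true, true, true], false), ([true, true, true, false, true], false), ([true, true, true], true), ([true], false), ([], false), ([false], false), ([false], false)],
  [([true], false), ([], false), ([false], false), ([false], false)],
  [([true, true, true, true, false], true), ([true], false), ([], false), ([false], false), ([false], false)],
  [([true], false), ([true, false, true], false), ([], false), ([false], false), ([false, false, false], false)],
  [([true, true, true, false, true], false), ([true, true, true], true), ([true], false), ([], false), ([false], false), ([false], false)],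
  [([true, true, true], true), ([true], false), ([], false), ([false], false), ([false], false)],
  [([true, true, true], true), ([true, true, true, true, false], true), ([true], false), ([], false), ([false], false), ([false], false)],
  [([true, true, true], true), ([true], false), ([true, false, true], false), ([], false), ([false], false), ([false, false, false], false)],
  [([true], false), ([], false), ([false], false), ([false, false, false], false)],
  [([true, true, true], true), ([true], false), ([], false), ([false], false), ([false, false, false], false)],
  [([true, true, false], false), ([true], false), ([true, false, false], false), ([true], true), ([], false), ([false], false), ([false], false)],
  [([true, true, false, true, true], true), ([true, true, false], false), ([true], false), ([true, false, false], false), ([true], true), ([], false), ([false], false), ([false], false)],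
  [([true, true, false, true, false], false), ([true, true, false], false), ([true], false), ([true, false, false], false), ([true], true), ([], false), ([false], false), ([false, false, false], false)],
  [([true, true, false], false), ([true], false), ([true, false, false], false), ([true], true), ([], false), ([false], false), ([false, false, false], false)],
  [([true, true, false], true), ([true], false), ([], false), ([false], false), ([false, false, false], false)],
  [([true, true, true], true), ([true, true, false], true), ([true], false), ([], false), ([false], false), ([false, false, false], false)],
  [([true], false), ([true, false, false], false), ([true], true), ([], false), ([false], false), ([false], false)],
  [([true], false), ([true, false, false], false), ([true], true), ([true, true, false], true), ([], false), ([false], false), ([false], false)],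
  [([true], false), ([true, false, false], false), ([true, false, false, false, true], false), ([true], true), ([], false), ([false], false), ([false, false, false], false)],
  [([true], false), ([true, false, false], false), ([true], true), ([], false), ([false], false), ([false, false, false], false)],
  [([true, true, false], true), ([true], false), ([true, false, false], false), ([true], true), ([], false), ([false], false), ([false], false)],
  [([true, true, true], false), ([true], false), ([true, false, true], false), ([true], true), ([], false), ([false], false), ([false], false)],
  [([true], false), ([true, false, true], false), ([true], true), ([], false), ([false], false), ([false], false)],
  [([], false), ([false], false), ([false], false)],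
  [([true, true, false], true), ([], false), ([false], false), ([false], false)],
  [([true, false, true], false), ([], false), ([false], false), ([false, false, false], false)],
  [([], false), ([false], false), ([false, false, false], false)],
  [([], false), ([false], true), ([false, true, true], true), ([false], false), ([false], false), ([false], false)],
  [([], false), ([false], true), ([false, true, false], false), ([false], false), ([false, false, false], false), ([false], false)],
  [([true, false, true, true, true], false), ([true], true), ([true, true, true], true), ([true], false), ([], false), ([false], false), ([false], false)],
  [([true], true), ([true, true, true], true), ([true], false), ([], false), ([false], false), ([false], false)],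
  [([true], true), ([true, true, true], true), ([true, true, true, true, false], true), ([true], false), ([], false), ([false], false), ([false], false)],
  [([true], true), ([true, true, true], true), ([true], false), ([true, false, true], false), ([], false), ([false], false), ([false, false, false], false)],
  [([true, false], false), ([true], true), ([true, true, false], true), ([], false), ([false], false), ([false], false)],
  [([true, false, true], true), ([true], true), ([true, true, true], true), ([true], false), ([], false), ([false], false), ([false], false)],
  [([true, false, true, false, true], true), ([true, false, true], true), ([true], true), ([true, true, true], true), ([true], false), ([], false), ([false], false), ([false], false)],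
  [([true, false, true, false, false], false), ([true, false, true], true), ([true, false], false), ([true], true), ([true, true, false], true), ([], false), ([false], false), ([false], false)],
  [([true, false, true], true), ([true, false], false), ([true], true), ([true, true, false], true), ([], false), ([false], false), ([false], false)],
  [([true, false, true], false), ([true, false, false], false), ([true], true), ([], false), ([false], false), ([false], false)],
  [([true, false, false], false), ([true], true), ([], false), ([false], false), ([false], false)],
  [([true, false, false], false), ([true], true), ([true, true, false], true), ([], false), ([false], false), ([false], false)],
  [([true, false, false], false), ([true, false, false, false, true], false), ([true], true), ([], false), ([false], false), ([false, false, false], false)],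
  [([true, false, false], false), ([true], true), ([], false), ([false], false), ([false, false, false], false)],
  [([true, false, false, true, false], true), ([true, false, false], false), ([true], true), ([], false), ([false], false), ([false, false, false], false)],
  [([true, false, true], false), ([true], true), ([], false), ([false], false), ([false], false)],
  [([true], true), ([], false), ([false], false), ([false], false)],
  [([true], true), ([true, true, false], true), ([], false), ([false], false), ([false], false)],
  [([true, false, false, false, true], false), ([true], true), ([], false), ([false], false), ([false, false, false], false)],
  [([true], true), ([], false), ([false], false), ([false, false, false], false)],
  [([true, false, false, false, false], false), ([true, false, false], true), ([true], true), ([true, true, false], true), ([], false), ([false], false), ([false], false)],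
  [([true, false, false], true), ([true], true), ([true, true, false], true), ([], false), ([false], false), ([false], false)],
  [([true], false), ([false], false), ([], false), ([false], false)],
  [([true, true, true], true), ([true], false), ([false], false), ([], false), ([false], false)],
  [([true, true, false], false), ([true], false), ([true, false, false], false), ([true], true), ([false], false), ([], false), ([false], false)],
  [([true], false), ([true, false, false], false), ([true], true), ([false], false), ([], false), ([false], false)],
  [([false], false), ([], false), ([false], false)],
  [([true], true), ([true, true, true], true), ([true], false), ([false], false), ([], false), ([false], false)],
  [([true, false, true], true), ([true], true), ([true, true, true], true), ([true], false), ([false], false), ([], false), ([false], false)],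
  [([true, false, false], false), ([true], true), ([false], false), ([], false), ([false], false)],
  [([true], true), ([false], false), ([], false), ([false], false)],
  [([true], false), ([false], false), ([], true), ([true], false), ([true, false, true], false), ([true], true), ([], false), ([false], false), ([false], false)],
  [([true], false), ([false, true, true], true), ([false], false), ([], true), ([true], false), ([true, false, true], false), ([true], true), ([], false), ([false], false), ([false], false)],
  [([true], false), ([false, true, false], false), ([false], false), ([false, false, false], false), ([false], true), ([], true), ([true], false), ([true, false, true], false), ([true], true), ([], false), ([false], false), ([false], false)],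
  [([true], false), ([false], false), ([false, false, false], false), ([false], true), ([], true), ([true], false), ([true, false, true], false), ([true], true), ([], false), ([false], false), ([false], false)],
  [([false], false), ([], true), ([true], false), ([true, false, true], false), ([true], true), ([], false), ([false], false), ([false], false)],
  [([false, true, true], true), ([false], false), ([], true), ([true], false), ([true, false, true], false), ([true], true), ([], false), ([false], false), ([false], false)],
  [([false, true, false], false), ([false], false), ([false, false, false], false), ([false], true), ([], true), ([true], false), ([true, false, true], false), ([true], true), ([], false), ([false], false), ([false], false)],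
  [([false], false), ([false, false, false], false), ([false], true), ([], true), ([true], false), ([true, false, true], false), ([true], true), ([], false), ([false], false), ([false], false)],
  [([false], false), ([false], false), ([false], false)],
  [([false, true, true, true, true], true), ([false], false), ([false], false), ([false], false)],
  [([false, true, true, true, false], false), ([false], false), ([false], false), ([false, false, false], false)],
  [([false], false), ([false], false), ([false, false, false], false)],
  [([false, true, true], true), ([false], false), ([false], false), ([false], false)],
  [([false], false), ([false, false, true], false), ([false, false], false), ([false, false, false], false)],
  [([false, true, true], true), ([false, true, true, true, false], false), ([false], false), ([false], false), ([false, false, false], false)],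
  [([false, true, true], true), ([false], false), ([false], false), ([false, false, false], false)],
  [([false, true, true], true), ([false, true, true], true), ([false], false), ([false], false), ([false], false)],
  [([false, true, false], false), ([false], false), ([false, false, false], false), ([false], false)],
  [([false], false), ([false, false], false), ([false, false, false], false)],
  [([false, true, false, true, true], false), ([false, true, false], false), ([false], false), ([false, false, false], false), ([false, false, false], false)],
  [([false, true, false], false), ([false], false), ([false, false, false], false), ([false, false, false], false)],
  [([false, true, false, true, false], false), ([false], false), ([false, false, true], true), ([false, false], false), ([false, false, false], false)],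
  [([false], false), ([false, false, true], true), ([false, false], false), ([false, false, false], false)],
  [([false], false), ([false, false, false], false), ([false], false)],
  [([false, true, true], true), ([false], false), ([false, false, false], false), ([false], false)],
  [([false, true, false], false), ([false], false), ([false, false, false], false), ([false, false, false, false, false], false)],
  [([false], false), ([false, false, false], false), ([false, false, false], false)],
  [([false, true, false, false, true], true), ([false], false), ([false, false, false], false), ([false, false, false], false)],
  [([false, true, false, false, false], false), ([false], false), ([false, false, false], false), ([false, false, false, false, false], false)],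
  [([false], false), ([false, false, false], false), ([false, false, false, false, false], false)],
  [([true], false), ([], false), ([false], false)],
  [([true, true, true], true), ([true], false), ([], false), ([false], false)],
  [([true, true, false], false), ([true], false), ([true, false, false], false), ([true], true), ([], false), ([false], false)],
  [([true], false), ([true, false, false], false), ([true], true), ([], false), ([false], false)],
  [([], false), ([false], false)],
  [([true], true), ([true, true, true], true), ([true], false), ([], false), ([false], false)],
  [([true, false, true], true), ([true], true), ([true, true, true], true), ([true], false), ([], false), ([false], false)],
  [([true, false, false], false), ([true], true), ([], false), ([false], false)],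
  [([true], true), ([], false), ([false], false)],
  [([true], false), ([], true), ([true], false), ([true, false, true], false), ([true], true), ([], false), ([false], false), ([false], false)],
  [([], true), ([true], false), ([true, false, true], false), ([true], true), ([], false), ([false], false), ([false], false)],
  [([false], false), ([false], false)],
  [([false, true, true], true), ([false], false), ([false], false)],
  [([false, true, false], false), ([false], false), ([false, false, false], false)],
  [([false], false), ([false, false, false], false)],
  [([true], false), ([false], true), ([false, true, true], true), ([false], false), ([], true), ([true], false), ([true, false, true], false), ([true], true), ([], false), ([false], false), ([false], false)],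
  [([true], false), ([false, false, true], true), ([false], true), ([false, true, true], true), ([false], false), ([], true), ([true], false), ([true, false, true], false), ([true], true), ([], false), ([false], false), ([false], false)],
  [([true], false), ([false, false, false], false), ([false], true), ([], true), ([true], false), ([true, false, true], false), ([true], true), ([], false), ([false], false), ([false], false)],
  [([true], false), ([false], true), ([], true), ([true], false), ([true, false, true], false), ([true], true), ([], false), ([false], false), ([false], false)],
  [([false], true), ([false, true, true], true), ([false], false), ([], true), ([true], false), ([true, false, true], false), ([true], true), ([], false), ([false], false), ([false], false)],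
  [([false, false, true], true), ([false], true), ([false, true, true], true), ([false], false), ([], true), ([true], false), ([true, false, true], false), ([true], true), ([], false), ([false], false), ([false], false)],
  [([false, false, false], false), ([false], true), ([], true), ([true], false), ([true, false, true], false), ([true], true), ([], false), ([false], false), ([false], false)],
  [([false], true), ([], true), ([true], false), ([true, false, true], false), ([true], true), ([], false), ([false], false), ([false], false)],
  [([false], true), ([false, true, true], true), ([false], false), ([false], false), ([false], false)],
  [([false], true), ([false, true, false], false), ([false], false), ([false, false, false], false), ([false], false)],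
  [([false, false, false], false), ([false], false)],
  [([false], false)],
  [([false, false, true], false), ([false, false], false), ([false, false, false], false)],
  [([false, false, true, true, true], true), ([false, false, true], false), ([false, false], false), ([false, false, false], false)],
  [([false], true), ([false, true, true], true), ([false], false), ([false], false), ([false, false, false], false)],
  [([false, false, true], false), ([false, false, true, false, false], false), ([false, false, true], true), ([false, false], false), ([false, false, false], false)],
  [([false, false], false), ([false, false, false], false)],
  [([false, false, true], true), ([false, false, true, true, true], true), ([false, false, true], false), ([false, false], false), ([false, false, false], false)],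
  [([false], true), ([false, true, false], false), ([false], false), ([false, false, false], false), ([false, false, false], false)],
  [([false, false, true, false, false], false), ([false, false, true], true), ([false, false], false), ([false, false, false], false)],
  [([false, false, true], true), ([false, false], false), ([false, false, false], false)],
  [([false, false, false], false), ([false], true), ([false, true, true], true), ([false], false), ([false], false)],
  [([false, false, false], false), ([false], true), ([false, true, false], false), ([false], false), ([false, false, false], false)],
  [([false, false, false], false), ([false, false, false], false)],
  [([false, false, false, true, true], true), ([false, false, false], false), ([false, false, false], false)],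
  [([false, false, false, true, false], false), ([false, false, false], false), ([false, false, false, false, false], false)],
  [([false, false, false], false), ([false, false, false, false, false], false)],
  [([false], true), ([false, true, true], true), ([false], false), ([false], false)],
  [([false], true), ([false, true, false], false), ([false], false), ([false, false, false], false)],
  [([false, false, false], false)],
  [([false, false, false], true), ([false, false, false, true, true], true), ([false, false, false], false), ([false, false, false], false)],
  [([false, false, false], true), ([false, false, false, true, false], false), ([false, false, false], false), ([false, false, false, false, false], false)],
  [([false, false, false, false, false], false)],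
  []]

set_option maxRecDepth 100000 in
theorem check : checkAll (L 4) (gen 5 4) table = true := by decide +kernel

theorem allEqv_four : AllEqv 4 := fun t ht hlen =>
  checkAll_sound check t (mem_gen 5 4 t ht hlen (by omega))

theorem allEqv {n : ℕ} (hn : 4 ≤ n) : AllEqv n := allEqv_of_four allEqv_four n hn

end B

end Q10.Twist
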