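import Pool.Agent.Q10.Twist.Base

/-! # The dissection of an interval given by a binary tree -/

namespace Q10.Twist

/-- two segments with increasing end points cross -/
def Cr (e f : ℕ × ℕ) : Prop :=
  (e.1 < f.1 ∧ f.1 < e.2 ∧ e.2 < f.2) ∨ (f.1 < e.1 ∧ e.1 < f.2 ∧ f.2 < e.2)

namespace B

/-- the edges of the triangulation given by a tree, for the polygon with vertices
`i, …, i + len t` -/
def Ed : B → ℕ → Set (ℕ × ℕ)
  | leaf, i => {(i, i + 1)}
  | node l r, i => {(i, i + (len l + len r))} ∪ (Ed l i ∪ Ed r (i + len l))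

theorem mem_Ed_node {l r : B} {i : ℕ} {e : ℕ × ℕ} : e ∈ Ed (node l r) i ↔
    e = (i, i + (len l + len r)) ∨ e ∈ Ed l i ∨ e ∈ Ed r (i + len l) := by
  simp only [Ed, Set.mem_union, Set.mem_singleton_iff]

theorem Ed_range (t : B) : ∀ {i : ℕ} {e : ℕ × ℕ}, e ∈ Ed t i → i ≤ e.1 ∧ e.1 < e.2 ∧ e.2 ≤ i + t.len := by
  induction t with
  | leaf =>
    intro i e h
    simp only [Ed, Set.mem_singleton_iff] at h
    subst h
    simp [len]
  | node l r hl hr =>
    intro i e h
    have h1 := len_pos l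
    have h2 := len_pos r
    rcases mem_Ed_node.1 h with rfl | h | h
    · simp only [len]; omega
    · have := hl h
      simp only [len]; omega
    · have := hr h
      simp only [len]; omega

theorem Ed_root (t : B) (i : ℕ) : (i, i + t.len) ∈ Ed t i := by
  cases t with
  | leaf => simp [Ed, len]
  | node l r => exact mem_Ed_node.2 (Or.inl rfl)

theorem Ed_side (t : B) : ∀ {i k : ℕ}, i ≤ k → k < i + t.len → (k, k + 1) ∈ Ed t i := by
  induction t with
  | leaf =>
    intro i k h1 h2
    simp only [len] at h2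
    obtain rfl : k = i := by omega
    simp [Ed]
  | node l r hl hr =>
    intro i k h1 h2
    simp only [len] at h2
    by_cases h : k < i + l.len
    · exact mem_Ed_node.2 (Or.inr (Or.inl (hl h1 h)))
    · exact mem_Ed_node.2 (Or.inr (Or.inr (hr (by omega) (by omega))))

theorem Ed_nc (t : B) : ∀ {i : ℕ} {e f : ℕ × ℕ}, e ∈ Ed t i → f ∈ Ed t i → ¬ Cr e f := by
  induction t with
  | leaf =>
    intro i e f he hf
    simp only [Ed, Set.mem_singleton_iff] at he hf
    subst he hf
    simp [Cr]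
  | node l r hl hr =>
    intro i e f he hf
    have re := Ed_range _ he
    have rf := Ed_range _ hf
    simp only [len] at re rf
    rcases mem_Ed_node.1 he with rfl | he | he <;> rcases mem_Ed_node.1 hf with rfl | hf | hf
    · simp [Cr]
    · unfold Cr; simp only; omega
    · unfold Cr; simp only; omega
    · unfold Cr; simp only; omega
    · exact hl he hf
    · have := Ed_range _ he
      have := Ed_range _ hf
      unfold Cr; omega
    · unfold Cr; simp only; omega
    · have := Ed_range _ he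
      have := Ed_range _ hf
      unfold Cr; omega
    · exact hr he hf

theorem Ed_max (t : B) : ∀ {i a b : ℕ}, i ≤ a → a < b → b ≤ i + t.len →
    (∀ f ∈ Ed t i, ¬ Cr (a, b) f) → (a, b) ∈ Ed t i := by
  induction t with
  | leaf =>
    intro i a b h1 h2 h3 _
    simp only [len] at h3
    obtain rfl : a = i := by omega
    obtain rfl : b = a + 1 := by omega
    simp [Ed]
  | node l r hl hr =>
    intro i a b h1 h2 h3 h
    simp only [len] at h3
    by_cases hb : b ≤ i + l.len
    · exact mem_Ed_node.2 (Or.inr (Or.inl (hl h1 h2 hb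
        fun f hf => h f (mem_Ed_node.2 (Or.inr (Or.inl hf))))))
    · by_cases ha : i + l.len ≤ a
      · exact mem_Ed_node.2 (Or.inr (Or.inr (hr ha h2 (by omega)
          fun f hf => h f (mem_Ed_node.2 (Or.inr (Or.inr hf))))))
      · have c1 := h _ (mem_Ed_node.2 (Or.inr (Or.inl (Ed_root l i))))
        have c2 := h _ (mem_Ed_node.2 (Or.inr (Or.inr (Ed_root r (i + l.len)))))
        unfold Cr at c1 c2
        simp only at c1 c2
        have e1 : a = i := by omega
        have e2 : b = i + (l.len + r.len) := by omega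
        subst e1 e2
        exact mem_Ed_node.2 (Or.inl rfl)

/-- all triangles of a typed tree are colourful -/
theorem Ed_tri (t : B) : ∀ {i a b c : ℕ}, a < b → b < c → (a, b) ∈ Ed t i → (b, c) ∈ Ed t i →
    (a, c) ∈ Ed t i → ∀ (y : Bool), Ty y t →
    a % 3 ≠ b % 3 ∧ b % 3 ≠ c % 3 ∧ a % 3 ≠ c % 3 := by
  induction t with
  | leaf =>
    intro i a b c h1 h2 h3 h4 h5
    have := Ed_range _ h3
    have := Ed_range _ h4
    simp only [len] at *
    omega
  | node l r hl hr =>
    intro i a b c h1 h2 h3 h4 h5 y hy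
    have r3 := Ed_range _ h3
    have r4 := Ed_range _ h4
    have pl := len_pos l
    have pr := len_pos r
    have hmod : (l.len % 3 = 1 ∧ r.len % 3 = 1) ∨ (l.len % 3 = 2 ∧ r.len % 3 = 2) := by
      cases y with
      | true =>
        obtain ⟨n, hn⟩ := (shape l).2 hy.1
        obtain ⟨m, hm⟩ := (shape r).2 hy.2
        omega
      | false =>
        obtain ⟨n, hn⟩ := (shape l).1 hy.1
        obtain ⟨m, hm⟩ := (shape r).1 hy.2
        omega
    have hyl : ∃ y, Ty y l := by cases y; exacts [⟨_, hy.1⟩, ⟨_, hy.1⟩]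
    have hyr : ∃ y, Ty y r := by cases y; exacts [⟨_, hy.2⟩, ⟨_, hy.2⟩]
    have s5 := Ed_range _ h5
    simp only [len] at r3 r4 s5
    rcases mem_Ed_node.1 h5 with h5 | h5 | h5
    · obtain ⟨rfl, rfl⟩ := Prod.mk.inj h5
      rcases mem_Ed_node.1 h3 with h3 | h3 | h3
      · have := (Prod.mk.inj h3).2
        omega
      · have q3 := Ed_range _ h3
        rcases mem_Ed_node.1 h4 with h4 | h4 | h4
        · have := (Prod.mk.inj h4).1
          omega
        · have q4 := Ed_range _ h4
          simp only at q3 q4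
          omega
        · have q4 := Ed_range _ h4
          simp only at q3 q4
          have : b = a + l.len := by omega
          omega
      · have q3 := Ed_range _ h3
        simp only at q3
        omega
    · have q5 := Ed_range _ h5
      simp only at q5
      obtain ⟨z, hz⟩ := hyl
      refine hl h1 h2 ?_ ?_ h5 z hz
      · rcases mem_Ed_node.1 h3 with h3 | h3 | h3
        · have := (Prod.mk.inj h3).2
          omega
        · exact h3
        · have q3 := Ed_range _ h3
          simp only at q3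
          omega
      · rcases mem_Ed_node.1 h4 with h4 | h4 | h4
        · have := (Prod.mk.inj h4).2
          omega
        · exact h4
        · have q4 := Ed_range _ h4
          simp only at q4
          omega
    · have q5 := Ed_range _ h5
      simp only at q5
      obtain ⟨z, hz⟩ := hyr
      refine hr h1 h2 ?_ ?_ h5 z hz
      · rcases mem_Ed_node.1 h3 with h3 | h3 | h3
        · have := (Prod.mk.inj h3).1
          omega
        · have q3 := Ed_range _ h3
          simp only at q3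
          omega
        · exact h3
      · rcases mem_Ed_node.1 h4 with h4 | h4 | h4
        · have := (Prod.mk.inj h4).1
          omega
        · have q4 := Ed_range _ h4
          simp only at q4
          omega
        · exact h4

/-- conversely, a tree all of whose triangles are colourful has a type -/
theorem ty_of_tri (t : B) : ∀ {i : ℕ}, (∀ a b c, a < b → b < c → (a, b) ∈ Ed t i →
    (b, c) ∈ Ed t i → (a, c) ∈ Ed t i → a % 3 ≠ b % 3 ∧ b % 3 ≠ c % 3 ∧ a % 3 ≠ c % 3) →
    (t.len % 3 = 1 ∧ Ty true t) ∨ (t.len % 3 = 2 ∧ Ty false t) := by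
  induction t with
  | leaf => intro i _; exact Or.inl ⟨rfl, trivial⟩
  | node l r hl hr =>
    intro i h
    have pl := len_pos l
    have pr := len_pos r
    have h1 := hl (i := i) fun a b c u1 u2 u3 u4 u5 => h a b c u1 u2
      (mem_Ed_node.2 (Or.inr (Or.inl u3))) (mem_Ed_node.2 (Or.inr (Or.inl u4)))
      (mem_Ed_node.2 (Or.inr (Or.inl u5)))
    have h2 := hr (i := i + l.len) fun a b c u1 u2 u3 u4 u5 => h a b c u1 u2
      (mem_Ed_node.2 (Or.inr (Or.inr u3))) (mem_Ed_node.2 (Or.inr (Or.inr u4)))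
      (mem_Ed_node.2 (Or.inr (Or.inr u5)))
    have h3 := h i (i + l.len) (i + (l.len + r.len)) (by omega) (by omega)
      (mem_Ed_node.2 (Or.inr (Or.inl (Ed_root l i))))
      (by
        have := Ed_root r (i + l.len)
        rw [Nat.add_assoc] at this
        exact mem_Ed_node.2 (Or.inr (Or.inr this)))
      (mem_Ed_node.2 (Or.inl rfl))
    rcases h1 with ⟨e1, t1⟩ | ⟨e1, t1⟩ <;> rcases h2 with ⟨e2, t2⟩ | ⟨e2, t2⟩
    · right
      exact ⟨by simp only [len]; omega, t1, t2⟩
    · omega
    · omega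
    · left
      exact ⟨by simp only [len]; omega, t1, t2⟩

/-- the effect of a step on the edges -/
theorem Step.Ed {t t' : B} (h : Step t t') : ∀ i : ℕ, ∃ (h₁ h₂ h₃ h₄ h₅ h₆ : ℕ) (Y : Set (ℕ × ℕ)),
    i ≤ h₁ ∧ h₁ < h₂ ∧ h₂ < h₃ ∧ h₃ < h₄ ∧ h₄ < h₅ ∧ h₅ < h₆ ∧ h₆ ≤ i + t.len ∧
    (h₁, h₂) ∈ Y ∧ (h₂, h₃) ∈ Y ∧ (h₃, h₄) ∈ Y ∧ (h₄, h₅) ∈ Y ∧ (h₅, h₆) ∈ Y ∧ (h₁, h₆) ∈ Y ∧
    t.Ed i = Y ∪ {(h₁, h₃), (h₃, h₅), (h₁, h₅)} ∧ t'.Ed i = Y ∪ {(h₂, h₄), (h₄, h₆), (h₂, h₆)} := by
  induction h with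
  | root a₁ a₂ a₃ a₄ b =>
    intro i
    have p1 := len_pos a₁
    have p2 := len_pos a₂
    have p3 := len_pos a₃
    have p4 := len_pos a₄
    have p5 := len_pos b
    obtain ⟨h₂, e2⟩ : ∃ x, x = i + a₁.len := ⟨_, rfl⟩
    obtain ⟨h₃, e3⟩ : ∃ x, x = h₂ + a₂.len := ⟨_, rfl⟩
    obtain ⟨h₄, e4⟩ : ∃ x, x = h₃ + a₃.len := ⟨_, rfl⟩
    obtain ⟨h₅, e5⟩ : ∃ x, x = h₄ + a₄.len := ⟨_, rfl⟩
    obtain ⟨h₆, e6⟩ : ∃ x, x = h₅ + b.len := ⟨_, rfl⟩
    refine ⟨i, h₂, h₃, h₄, h₅, h₆, {(i, h₆)} ∪ (a₁.Ed i ∪ a₂.Ed h₂ ∪ a₃.Ed h₃ ∪ a₄.Ed h₄ ∪ b.Ed h₅),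
      le_rfl, by omega, by omega, by omega, by omega, by omega, by simp only [B.len]; omega, ?_, ?_,
      ?_, ?_, ?_, ?_, ?_, ?_⟩
    · have := Ed_root a₁ i
      rw [← e2] at this
      simp [this]
    · have := Ed_root a₂ h₂
      rw [← e3] at this
      simp [this]
    · have := Ed_root a₃ h₃
      rw [← e4] at this
      simp [this]
    · have := Ed_root a₄ h₄
      rw [← e5] at this
      simp [this]
    · have := Ed_root b h₅
      rw [← e6] at this
      simp [this]
    · simp
    · simp only [B.Ed, B.len]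
      have u1 : i + (a₁.len + a₂.len + (a₃.len + a₄.len) + b.len) = h₆ := by omega
      have u2 : i + (a₁.len + a₂.len + (a₃.len + a₄.len)) = h₅ := by omega
      have u3 : i + (a₁.len + a₂.len) = h₃ := by omega
      have u4 : h₃ + (a₃.len + a₄.len) = h₅ := by omega
      rw [u1, u2, u3, u4, ← e2, ← e4]
      ext e
      simp only [Set.mem_union, Set.mem_singleton_iff, Set.mem_insert_iff]
      tauto
    · simp only [B.Ed, B.len]
      have u1 : i + (a₁.len + (a₂.len + a₃.len + (a₄.len + b.len))) = h₆ := by omega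
      rw [u1, ← e2]
      have u2 : h₂ + (a₂.len + a₃.len + (a₄.len + b.len)) = h₆ := by omega
      have u3 : h₂ + (a₂.len + a₃.len) = h₄ := by omega
      have u4 : h₄ + (a₄.len + b.len) = h₆ := by omega
      rw [u2, u3, u4, ← e3, ← e5]
      ext e
      simp only [Set.mem_union, Set.mem_singleton_iff, Set.mem_insert_iff]
      tauto
  | @left l l' r hs ih =>
    intro i
    obtain ⟨h₁, h₂, h₃, h₄, h₅, h₆, Y, g1, g2, g3, g4, g5, g6, g7, k1, k2, k3, k4, k5, k6, q1, q2⟩ :=
      ih i
    refine ⟨h₁, h₂, h₃, h₄, h₅, h₆, {(i, i + (l.len + r.len))} ∪ (Y ∪ r.Ed (i + l.len)), g1, g2, g3,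
      g4, g5, g6, by simp only [B.len]; omega, by simp [k1], by simp [k2], by simp [k3],
      by simp [k4], by simp [k5], by simp [k6], ?_, ?_⟩
    · simp only [B.Ed, q1]
      ext e
      simp only [Set.mem_union, Set.mem_singleton_iff, Set.mem_insert_iff]
      tauto
    · simp only [B.Ed, q2, ← hs.len]
      ext e
      simp only [Set.mem_union, Set.mem_singleton_iff, Set.mem_insert_iff]
      tauto
  | @right l r r' hs ih =>
    intro i
    obtain ⟨h₁, h₂, h₃, h₄, h₅, h₆, Y, g1, g2, g3, g4, g5, g6, g7, k1, k2, k3, k4, k5, k6, q1, q2⟩ :=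
      ih (i + l.len)
    refine ⟨h₁, h₂, h₃, h₄, h₅, h₆, {(i, i + (l.len + r.len))} ∪ (l.Ed i ∪ Y), by omega, g2, g3,
      g4, g5, g6, by simp only [B.len]; omega, by simp [k1], by simp [k2], by simp [k3],
      by simp [k4], by simp [k5], by simp [k6], ?_, ?_⟩
    · simp only [B.Ed, q1]
      ext e
      simp only [Set.mem_union, Set.mem_singleton_iff, Set.mem_insert_iff]
      tauto
    · simp only [B.Ed, q2, ← hs.len]
      ext e
      simp only [Set.mem_union, Set.mem_singleton_iff, Set.mem_insert_iff]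
      tauto

/-- every maximal noncrossing family comes from a tree -/
theorem exists_tree {N : ℕ} {G : ℕ → ℕ → Prop} (hside : ∀ k, 1 ≤ k → k < N → G k (k + 1))
    (hlt : ∀ a b, G a b → 1 ≤ a ∧ a < b ∧ b ≤ N)
    (hnc : ∀ a b c d, G a b → G c d → ¬ (a < c ∧ c < b ∧ b < d))
    (hmax : ∀ a b, 1 ≤ a → a < b → b ≤ N → (∀ c d, G c d → ¬ Cr (a, b) (c, d)) → G a b) :
    ∀ n i, 1 ≤ i → i + (n + 1) ≤ N → G i (i + (n + 1)) → ∃ t : B, t.len = n + 1 ∧
      ∀ a b, (a, b) ∈ t.Ed i ↔ (G a b ∧ i ≤ a ∧ b ≤ i + (n + 1)) := by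
  intro n
  induction n using Nat.strong_induction_on with
  | _ n ih =>
  intro i hi hiN hG
  rcases Nat.eq_zero_or_pos n with rfl | hn
  · refine ⟨leaf, rfl, fun a b => ?_⟩
    simp only [Ed, Set.mem_singleton_iff, Prod.mk.injEq]
    constructor
    · rintro ⟨rfl, rfl⟩
      exact ⟨hG, le_rfl, le_rfl⟩
    · rintro ⟨h1, h2, h3⟩
      have := hlt a b h1
      omega
  · classical
    obtain ⟨m, hm⟩ : ∃ m, m = Nat.findGreatest (fun k => G i (i + k)) n := ⟨_, rfl⟩
    have hside_i : G i (i + 1) := hside i hi (by omega)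
    have hGm : G i (i + m) := by
      rw [hm]
      exact Nat.findGreatest_spec (P := fun k => G i (i + k)) (m := 1) (by omega) hside_i
    have hm1 : 1 ≤ m := by
      rw [hm]
      exact Nat.le_findGreatest (by omega) hside_i
    have hmn : m ≤ n := by rw [hm]; exact Nat.findGreatest_le n
    have hgt : ∀ k, m < k → k ≤ n → ¬ G i (i + k) := by
      intro k h1 h2
      rw [hm] at h1
      exact Nat.findGreatest_is_greatest (P := fun k => G i (i + k)) h1 h2
    have hGr : G (i + m) (i + (n + 1)) := by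
      refine hmax _ _ (by omega) (by omega) hiN ?_
      intro c d hcd hcr
      have hcd' := hlt c d hcd
      unfold Cr at hcr
      simp only at hcr
      rcases hcr with ⟨h1, h2, h3⟩ | ⟨h1, h2, h3⟩
      · exact hnc _ _ _ _ hG hcd ⟨by omega, h2, h3⟩
      · rcases lt_trichotomy c i with hc | hc | hc
        · exact hnc _ _ _ _ hcd hG ⟨hc, by omega, h3⟩
        · subst hc
          refine hgt (d - c) (by omega) (by omega) ?_
          rw [show c + (d - c) = d by omega]
          exact hcd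
        · exact hnc _ _ _ _ hGm hcd ⟨hc, h1, h2⟩
    obtain ⟨p, rfl⟩ : ∃ p, m = p + 1 := ⟨m - 1, by omega⟩
    obtain ⟨q, hq⟩ : ∃ q, n = (p + 1) + q := ⟨n - (p + 1), by omega⟩
    obtain ⟨l, hl1, hl2⟩ := ih p (by omega) i hi (by omega) hGm
    obtain ⟨r, hr1, hr2⟩ := ih q (by omega) (i + (p + 1)) (by omega) (by omega)
      (by rw [show i + (p + 1) + (q + 1) = i + (n + 1) by omega]; exact hGr)
    refine ⟨node l r, by simp only [len]; omega, fun a b => ?_⟩
    rw [mem_Ed_node, hl1, hl2, hr2, Prod.mk.injEq, hr1]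
    constructor
    · rintro (⟨rfl, rfl⟩ | ⟨h1, h2, h3⟩ | ⟨h1, h2, h3⟩)
      · rw [show a + (p + 1 + (q + 1)) = a + (n + 1) by omega]
        exact ⟨hG, le_rfl, le_rfl⟩
      · exact ⟨h1, h2, by omega⟩
      · exact ⟨h1, by omega, by omega⟩
    · rintro ⟨h1, h2, h3⟩
      have h4 := hlt a b h1
      by_cases hb : b ≤ i + (p + 1)
      · exact Or.inr (Or.inl ⟨h1, h2, hb⟩)
      · by_cases ha : i + (p + 1) ≤ a
        · exact Or.inr (Or.inr ⟨h1, ha, by omega⟩)
        · left
          have c1 := hnc _ _ _ _ hGm h1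
          have c2 := hnc _ _ _ _ h1 hGr
          omega

end B

end Q10.Twist
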