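import Mathlib

/-! # Binary trees, the associativity-type step, and its connectivity for trees with 3n+1 leaves -/

namespace Q10.Twist

/-- Binary trees. -/
inductive B where
  | leaf : B
  | node (l r : B) : B

namespace B

/-- number of leaves -/
def len : B → ℕ
  | leaf => 1
  | node l r => len l + len r

/-- `Ty true t`: `t` comes from a quaternary tree; `Ty false t`: half of such a node. -/
def Ty : Bool → B → Prop
  | true, leaf => True
  | false, leaf => False
  | b, node l r => Ty (!b) l ∧ Ty (!b) r

/-- The elementary move. -/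
inductive Step : B → B → Prop
  | root (a₁ a₂ a₃ a₄ b : B) : Step (node (node (node a₁ a₂) (node a₃ a₄)) b)
      (node a₁ (node (node a₂ a₃) (node a₄ b)))
  | left {l l' : B} (r : B) : Step l l' → Step (node l r) (node l' r)
  | right (l : B) {r r' : B} : Step r r' → Step (node l r) (node l r')

/-- Equivalence generated by `Step`. -/
abbrev Eqv : B → B → Prop := Relation.EqvGen Step

theorem len_pos (t : B) : 0 < t.len := by
  induction t with
  | leaf => simp [len]
  | node l r hl hr => simp only [len]; omega

theorem Step.len {t t' : B} (h : Step t t') : t.len = t'.len := by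
  induction h with
  | root a₁ a₂ a₃ a₄ b => simp only [B.len]; omega
  | left r _ ih => simp only [B.len]; omega
  | right l _ ih => simp only [B.len]; omega

theorem Step.ty {t t' : B} (h : Step t t') : ∀ b, Ty b t ↔ Ty b t' := by
  induction h with
  | root a₁ a₂ a₃ a₄ b =>
    intro b
    simp only [Ty, Bool.not_not]
    tauto
  | left r _ ih => intro b; simp only [Ty, ih]
  | right l _ ih => intro b; simp only [Ty, ih]

theorem Eqv.len {t t' : B} (h : Eqv t t') : t.len = t'.len := by
  induction h with
  | rel _ _ h => exact h.len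
  | refl => rfl
  | symm _ _ _ ih => exact ih.symm
  | trans _ _ _ _ _ ih1 ih2 => exact ih1.trans ih2

theorem Eqv.left {l l' : B} (h : Eqv l l') (r : B) : Eqv (node l r) (node l' r) := by
  induction h with
  | rel _ _ h => exact .rel _ _ (h.left r)
  | refl => exact .refl _
  | symm _ _ _ ih => exact ih.symm
  | trans _ _ _ _ _ ih1 ih2 => exact .trans _ _ _ ih1 ih2

theorem Eqv.right (l : B) {r r' : B} (h : Eqv r r') : Eqv (node l r) (node l r') := by
  induction h with
  | rel _ _ h => exact .rel _ _ (h.right l)
  | refl => exact .refl _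
  | symm _ _ _ ih => exact ih.symm
  | trans _ _ _ _ _ ih1 ih2 => exact .trans _ _ _ ih1 ih2

/-- substitution at the leaves, leaf number `j` (counted from `k`) is replaced by `f j` -/
def sub : B → (ℕ → B) → ℕ → B
  | leaf, f, k => f k
  | node l r, f, k => node (sub l f k) (sub r f (k + len l))

theorem Step.sub {t t' : B} (h : Step t t') (f : ℕ → B) :
    ∀ k, Step (t.sub f k) (t'.sub f k) := by
  induction h with
  | root a₁ a₂ a₃ a₄ b =>
    intro k
    simp only [B.sub, B.len, ← Nat.add_assoc]
    exact .root _ _ _ _ _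
  | left r h ih =>
    intro k
    simp only [B.sub, h.len]
    exact (ih k).left _
  | right l h ih =>
    intro k
    simp only [B.sub]
    exact (ih _).right _

theorem Eqv.sub {t t' : B} (h : Eqv t t') (f : ℕ → B) (k : ℕ) :
    Eqv (t.sub f k) (t'.sub f k) := by
  induction h with
  | rel _ _ h => exact .rel _ _ (h.sub f k)
  | refl => exact .refl _
  | symm _ _ _ ih => exact ih.symm
  | trans _ _ _ _ _ ih1 ih2 => exact .trans _ _ _ ih1 ih2

/-- quaternary node -/
abbrev Nd (a b c d : B) : B := node (node a b) (node c d)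

/-- the tree with one quaternary node -/
abbrev P : B := Nd leaf leaf leaf leaf

/-- put `P` at leaf `i` -/
def gp (i : ℕ) : ℕ → B := fun j => if j = i then P else leaf

theorem sub_gp_of_lt (t : B) : ∀ {k i : ℕ}, (i < k ∨ k + t.len ≤ i) → t.sub (gp i) k = t := by
  induction t with
  | leaf =>
    intro k i h
    simp only [B.sub, gp, len] at *
    rw [if_neg (by omega)]
  | node l r hl hr =>
    intro k i h
    simp only [B.sub, len] at *
    rw [hl (by omega), hr (by omega)]

theorem len_sub_gp (t : B) : ∀ {k i : ℕ}, k ≤ i → i < k + t.len → (t.sub (gp i) k).len = t.len + 3 := by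
  induction t with
  | leaf =>
    intro k i h1 h2
    simp only [B.sub, gp, len] at *
    rw [if_pos (by omega)]
    simp [len]
  | node l r hl hr =>
    intro k i h1 h2
    simp only [B.sub, len] at *
    by_cases h : i < k + l.len
    · rw [hl h1 h, sub_gp_of_lt r (Or.inl h)]; omega
    · rw [sub_gp_of_lt l (Or.inr (by omega)), hr (by omega) (by omega)]; omega

theorem ty_sub_gp (t : B) : ∀ {b : Bool} {k i : ℕ}, Ty b t → Ty b (t.sub (gp i) k) := by
  induction t with
  | leaf =>
    intro b k i h
    cases b with
    | true =>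
      simp only [B.sub, gp]
      split_ifs <;> simp [Ty]
    | false => exact h.elim
  | node l r hl hr =>
    intro b k i h
    cases b with
    | true => exact ⟨hl (b := false) h.1, hr (b := false) h.2⟩
    | false => exact ⟨hl (b := true) h.1, hr (b := true) h.2⟩

/-- every tree of type `true` other than the leaf is a graft of `P` -/
theorem extract (t : B) : (∀ k, Ty true t → t = leaf ∨ ∃ t' i, Ty true t' ∧ k ≤ i ∧ i < k + t'.len ∧
      t'.sub (gp i) k = t) ∧
    (∀ k, Ty false t → t = node leaf leaf ∨ ∃ t' i, Ty false t' ∧ k ≤ i ∧ i < k + t'.len ∧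
      t'.sub (gp i) k = t) := by
  induction t with
  | leaf => exact ⟨fun k _ => Or.inl rfl, fun k h => h.elim⟩
  | node l r hl hr =>
    refine ⟨fun k h => Or.inr ?_, fun k h => ?_⟩
    · obtain ⟨h1, h2⟩ := h
      rcases hl.2 k h1 with e1 | ⟨l', i, g1, g2, g3, g4⟩
      · rcases hr.2 (k + l.len) h2 with e2 | ⟨r', i, g1, g2, g3, g4⟩
        · refine ⟨leaf, k, trivial, le_rfl, by simp [len], ?_⟩
          subst e1 e2
          simp [B.sub, gp]
        · refine ⟨node l r', i, ⟨h1, g1⟩, by omega, by simp only [len]; omega, ?_⟩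
          simp only [B.sub]
          rw [g4, sub_gp_of_lt l (Or.inr g2)]
      · refine ⟨node l' r, i, ⟨g1, h2⟩, by omega, by simp only [len]; omega, ?_⟩
        simp only [B.sub]
        rw [g4, sub_gp_of_lt r (Or.inl g3)]
    · obtain ⟨h1, h2⟩ := h
      rcases hl.1 k h1 with e1 | ⟨l', i, g1, g2, g3, g4⟩
      · rcases hr.1 (k + l.len) h2 with e2 | ⟨r', i, g1, g2, g3, g4⟩
        · left
          rw [e1, e2]
        · right
          refine ⟨node l r', i, ⟨h1, g1⟩, by omega, by simp only [len]; omega, ?_⟩
          simp only [B.sub]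
          rw [g4, sub_gp_of_lt l (Or.inr g2)]
      · right
        refine ⟨node l' r, i, ⟨g1, h2⟩, by omega, by simp only [len]; omega, ?_⟩
        simp only [B.sub]
        rw [g4, sub_gp_of_lt r (Or.inl g3)]

/-- left comb with `n` quaternary nodes -/
def L : ℕ → B
  | 0 => leaf
  | n + 1 => Nd (L n) leaf leaf leaf

theorem len_L : ∀ n, (L n).len = 3 * n + 1
  | 0 => rfl
  | n + 1 => by simp only [L, len, len_L n]; omega

theorem ty_L : ∀ n, Ty true (L n)
  | 0 => trivial
  | n + 1 => by simp [L, Ty, ty_L n]

/-- all trees of type `true` with `n` quaternary nodes are equivalent -/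
def AllEqv (n : ℕ) : Prop := ∀ t, Ty true t → t.len = 3 * n + 1 → Eqv t (L n)

theorem allEqv_succ {n : ℕ} (hn : 2 ≤ n) (H : AllEqv n) : AllEqv (n + 1) := by
  obtain ⟨m, rfl⟩ : ∃ m, n = m + 1 := ⟨n - 1, by omega⟩
  have key1 : ∀ (t' : B) (i : ℕ), Ty true t' → t'.len = 3 * (m + 1) + 1 → i < (L m).len →
      Eqv (t'.sub (gp i) 0) (L (m + 1 + 1)) := by
    intro t' i h1 h2 h3
    have e1 : Eqv (t'.sub (gp i) 0) ((L (m + 1)).sub (gp i) 0) := (H t' h1 h2).sub _ _
    refine e1.trans _ _ _ ?_
    have e2 : (L (m + 1)).sub (gp i) 0 = Nd ((L m).sub (gp i) 0) leaf leaf leaf := by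
      simp only [L, B.sub, gp, len]
      rw [if_neg (by omega), if_neg (by omega), if_neg (by omega)]
    rw [e2]
    have e3 : Eqv ((L m).sub (gp i) 0) (L (m + 1)) := by
      refine H _ (ty_sub_gp _ (ty_L m)) ?_
      rw [len_sub_gp _ (Nat.zero_le _) (by omega), len_L]; omega
    exact (e3.left leaf).left _
  intro t ht hlen
  rcases (extract t).1 0 ht with rfl | ⟨t', i, g1, g2, g3, g4⟩
  · simp [len] at hlen
  · have hlen' : t'.len = 3 * (m + 1) + 1 := by
      rw [← g4, len_sub_gp _ g2 g3] at hlen; omega
    rw [← g4]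
    by_cases hi : i < (L m).len
    · exact key1 t' i g1 hlen' hi
    · have hm := len_L m
      -- the tree with everything in the last child
      have f1 : Ty true (Nd leaf leaf leaf (L m)) := by simp [Ty, ty_L m]
      have f2 : (Nd leaf leaf leaf (L m)).len = 3 * (m + 1) + 1 := by
        simp only [len, hm]; omega
      have f3 : Eqv t' (Nd leaf leaf leaf (L m)) := (H t' g1 hlen').trans _ _ _ (H _ f1 f2).symm
      have f4 : ∀ j, 3 ≤ j → j < 3 + (L m).len → (Nd leaf leaf leaf (L m)).sub (gp j) 0 =
          Nd leaf leaf leaf ((L m).sub (gp j) 3) := by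
        intro j hj _
        simp only [B.sub, gp, len]
        rw [if_neg (by omega), if_neg (by omega), if_neg (by omega)]
      have f5 : ∀ j, 3 ≤ j → j < 3 + (L m).len → Eqv ((L m).sub (gp j) 3) (L (m + 1)) := by
        intro j hj hj2
        refine H _ (ty_sub_gp _ (ty_L m)) ?_
        rw [len_sub_gp _ hj hj2, hm]; omega
      have f6 : Eqv (t'.sub (gp i) 0) (Nd leaf leaf leaf (L (m + 1))) := by
        refine (f3.sub _ _).trans _ _ _ ?_
        rw [f4 i (by omega) (by omega)]
        exact ((f5 i (by omega) (by omega)).right leaf).right _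
      have f7 : Eqv ((Nd leaf leaf leaf (L m)).sub (gp 3) 0) (Nd leaf leaf leaf (L (m + 1))) := by
        rw [f4 3 (by omega) (by omega)]
        exact ((f5 3 (by omega) (by omega)).right leaf).right _
      refine f6.trans _ _ _ (f7.symm.trans _ _ _ ?_)
      exact key1 _ 3 f1 f2 (by omega)

theorem allEqv_of_four (H : AllEqv 4) : ∀ n, 4 ≤ n → AllEqv n := by
  intro n hn
  induction n, hn using Nat.le_induction with
  | base => exact H
  | succ n hn ih => exact allEqv_succ (by omega) ih

end B

end Q10.Twist
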